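import Mathlib

namespace Pool.Agent.Results.MP_c6110c_co.LowerBound

open Finset

/-- The monotone partial functions from `P` to the chain with `t` elements: `f x = none` means that
`x` is not in the domain. -/
def MonoPartial (t : ℕ) (P : Type) [PartialOrder P] : Type :=
  {f : P → Option (Fin t) // ∀ x y : P, ∀ a b : Fin t, x ≤ y → f x = some a → f y = some b → a ≤ b}

noncomputable instance (t : ℕ) (P : Type) [PartialOrder P] [Fintype P] :
    Fintype (MonoPartial t P) := by
  classical
  unfold MonoPartial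
  infer_instance

/-- `x` and `y` are in the domain of `f` and `f x < f y`. -/
def Sep {t : ℕ} {P : Type} [PartialOrder P] (f : MonoPartial t P) (x y : P) : Prop :=
  ∃ a b : Fin t, f.1 x = some a ∧ f.1 y = some b ∧ a < b

open Classical in
/-- Fractional local `t`-realisers of `P`. -/
def IsRealiser {t : ℕ} {P : Type} [PartialOrder P] [Fintype P] (w : MonoPartial t P → ℝ) : Prop :=
  (∀ f, 0 ≤ w f) ∧ ∀ x y : P, ¬ (y ≤ x) → 1 ≤ ∑ f, if Sep f x y then w f else 0

/-- The total weight of the functions whose domain contains `x`. -/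
noncomputable def load {t : ℕ} {P : Type} [PartialOrder P] [Fintype P] (w : MonoPartial t P → ℝ)
    (x : P) : ℝ := ∑ f, if (f.1 x).isSome then w f else 0

/-- The fractional local `t`-dimension of `P`: the least `c` such that some fractional local
`t`-realiser has load at most `c` at every point. -/
noncomputable def fldim (t : ℕ) (P : Type) [PartialOrder P] [Fintype P] : ℝ :=
  sInf {c : ℝ | ∃ w : MonoPartial t P → ℝ, IsRealiser w ∧ ∀ x, load w x ≤ c}

/-! ### Harmonic numbers -/

noncomputable def H (n : ℕ) : ℝ := ∑ k ∈ range n, 1 / ((k : ℝ) + 1)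

theorem H_succ (n : ℕ) : H (n + 1) = H n + 1 / ((n : ℝ) + 1) := by
  unfold H
  rw [sum_range_succ]

theorem log_le_H (n : ℕ) : Real.log ((n : ℝ) + 1) ≤ H n := by
  induction n with
  | zero => simp [H]
  | succ n ih =>
    rw [H_succ]
    have h1 : (0 : ℝ) < (n : ℝ) + 1 := by positivity
    have h2 := Real.log_le_sub_one_of_pos (show (0 : ℝ) < ((n : ℝ) + 1 + 1) / (n + 1) by positivity)
    rw [Real.log_div (by positivity) (by positivity)] at h2
    have h3 : ((n : ℝ) + 1 + 1) / (n + 1) - 1 = 1 / (n + 1) := by field_simp; ring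
    push_cast
    linarith

theorem H_sub_le {a : ℕ} (ha : 1 ≤ a) (d : ℕ) :
    H (a + d) - H a ≤ Real.log ((a : ℝ) + d) - Real.log a := by
  induction d with
  | zero => simp
  | succ d ih =>
    rw [← add_assoc, H_succ]
    have ha' : (1 : ℝ) ≤ a := by exact_mod_cast ha
    have h0 : (0 : ℝ) < (a : ℝ) + d := by positivity
    have h1 : (0 : ℝ) < (a : ℝ) + d + 1 := by positivity
    have h2 := Real.log_le_sub_one_of_pos (show (0 : ℝ) < ((a : ℝ) + d) / (a + d + 1) by positivity)
    rw [Real.log_div (by positivity) (by positivity)] at h2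
    have h3 : ((a : ℝ) + d) / (a + d + 1) - 1 = - (1 / (a + d + 1)) := by field_simp; ring
    push_cast
    rw [show (a : ℝ) + (d + 1) = a + d + 1 by ring]
    linarith

noncomputable def A (n : ℕ) : ℝ := ∑ k ∈ range n, H k

theorem A_succ (n : ℕ) : A (n + 1) = A n + H n := by
  unfold A
  rw [sum_range_succ]

theorem A_eq (n : ℕ) : A n = n * H n - n := by
  induction n with
  | zero => simp [A, H]
  | succ n ih =>
    rw [A_succ, ih, H_succ]
    have : (n : ℝ) + 1 ≠ 0 := by positivity
    push_cast
    field_simp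
    ring

/-! ### The inequality for a single function -/

/-- If `B < C < z` then `∑_{x ∈ B} 1 / (z - x)` is at most `H (|B| + |C|) - H |C|`. -/
theorem sum_low (C : Finset ℕ) (z : ℕ) (hC : ∀ c ∈ C, c < z) (B : Finset ℕ) :
    (∀ b ∈ B, b < z) → (∀ b ∈ B, ∀ c ∈ C, b < c) →
    ∑ x ∈ B, ((z : ℝ) - x)⁻¹ ≤ H (B.card + C.card) - H C.card := by
  induction B using Finset.induction_on_min with
  | empty => intro _ _; simp
  | insert x0 B hB ih =>
    intro hz hBC
    have hx0 : x0 ∉ B := fun h => lt_irrefl _ (hB x0 h)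
    rw [sum_insert hx0, card_insert_of_notMem hx0]
    have ih' := ih (fun b hb => hz b (mem_insert_of_mem hb))
      (fun b hb => hBC b (mem_insert_of_mem hb))
    have hxz : x0 < z := hz x0 (mem_insert_self _ _)
    have hdisj : Disjoint (insert x0 B) C := by
      rw [Finset.disjoint_left]
      intro b hb hc
      exact lt_irrefl _ (hBC b hb b hc)
    have hsub : (insert x0 B) ∪ C ⊆ Ico x0 z := by
      intro y hy
      rw [mem_Ico]
      rcases mem_union.1 hy with hy | hy
      · rcases mem_insert.1 hy with rfl | hy'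
        · exact ⟨le_rfl, hxz⟩
        · exact ⟨(hB y hy').le, hz y hy⟩
      · exact ⟨(hBC x0 (mem_insert_self _ _) y hy).le, hC y hy⟩
    have hcard := card_le_card hsub
    rw [card_union_of_disjoint hdisj, card_insert_of_notMem hx0, Nat.card_Ico] at hcard
    have h1 : ((B.card + C.card : ℕ) : ℝ) + 1 ≤ (z : ℝ) - x0 := by
      have h2 : B.card + C.card + 1 + x0 ≤ z := by omega
      have h3 : ((B.card + C.card + 1 + x0 : ℕ) : ℝ) ≤ z := by exact_mod_cast h2
      push_cast at h3 ⊢
      linarith
    have h4 : ((z : ℝ) - x0)⁻¹ ≤ 1 / (((B.card + C.card : ℕ) : ℝ) + 1) := by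
      rw [one_div]
      exact inv_anti₀ (by positivity) h1
    rw [show B.card + 1 + C.card = B.card + C.card + 1 by ring, H_succ]
    linarith

variable {t : ℕ}

/-- The number of elements of `s` with label `i`. -/
def cnt (s : Finset ℕ) (g : ℕ → Fin t) (i : Fin t) : ℕ := (s.filter fun x => g x = i).card

noncomputable def T (s : Finset ℕ) (g : ℕ → Fin t) : ℝ :=
  ∑ y ∈ s, ∑ x ∈ s, if g x < g y then ((y : ℝ) - x)⁻¹ else 0

theorem T_le (g : ℕ → Fin t) (s : Finset ℕ) :
    (∀ x ∈ s, ∀ y ∈ s, x ≤ y → g x ≤ g y) → T s g ≤ A s.card - ∑ i, A (cnt s g i) := by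
  induction s using Finset.induction_on_max with
  | empty => intro _; simp [T, A, cnt]
  | insert z s hz ih =>
    intro hg
    have hzs : z ∉ s := fun h => lt_irrefl _ (hz z h)
    have ih' := ih (fun x hx y hy => hg x (mem_insert_of_mem hx) y (mem_insert_of_mem hy))
    have hgz : ∀ x ∈ s, g x ≤ g z := fun x hx =>
      hg x (mem_insert_of_mem hx) z (mem_insert_self _ _) (hz x hx).le
    -- split the sum
    have h1 : T (insert z s) g = T s g + ∑ x ∈ s.filter (fun x => g x < g z), ((z : ℝ) - x)⁻¹ := by
      unfold T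
      rw [sum_insert hzs, sum_insert hzs, if_neg (lt_irrefl _), zero_add, add_comm, sum_filter]
      congr 1
      apply sum_congr rfl
      intro y hy
      rw [sum_insert hzs, if_neg (not_lt.2 (hgz y hy)), zero_add]
    have h2 := sum_low (s.filter fun x => g x = g z) z (fun c hc => hz c (mem_filter.1 hc).1)
      (s.filter fun x => g x < g z) (fun b hb => hz b (mem_filter.1 hb).1) (by
        intro b hb c hc
        rw [mem_filter] at hb hc
        by_contra hcon
        have := hg c (mem_insert_of_mem hc.1) b (mem_insert_of_mem hb.1) (not_lt.1 hcon)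
        rw [hc.2] at this
        exact absurd hb.2 (not_lt.2 this))
    have h3 : (s.filter fun x => g x < g z).card + (s.filter fun x => g x = g z).card = s.card := by
      have h4 : (s.filter fun x => g x = g z) = s.filter fun x => ¬ (g x < g z) := by
        apply filter_congr
        intro x hx
        constructor
        · intro h
          rw [h]
          exact lt_irrefl _
        · intro h
          exact le_antisymm (hgz x hx) (not_lt.1 h)
      rw [h4, card_filter_add_card_filter_not]
    rw [h3] at h2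
    have h5 : ∑ i, A (cnt (insert z s) g i) = ∑ i, A (cnt s g i) + H (cnt s g (g z)) := by
      have h6 : ∀ i, A (cnt (insert z s) g i) = A (cnt s g i) + if i = g z then H (cnt s g (g z)) else 0 := by
        intro i
        by_cases hi : i = g z
        · subst hi
          rw [if_pos rfl, ← A_succ]
          congr 1
          unfold cnt
          rw [filter_insert, if_pos rfl, card_insert_of_notMem]
          intro h
          exact hzs (mem_filter.1 h).1
        · rw [if_neg hi, add_zero]
          congr 1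
          unfold cnt
          rw [filter_insert, if_neg (fun h => hi h.symm)]
      rw [sum_congr rfl (fun i _ => h6 i), sum_add_distrib]
      simp
    rw [h1, h5, card_insert_of_notMem hzs, A_succ]
    have h7 : (s.filter fun x => g x = g z).card = cnt s g (g z) := rfl
    rw [h7] at h2
    linarith

theorem T_le_log (g : ℕ → Fin t) (s : Finset ℕ) (hg : ∀ x ∈ s, ∀ y ∈ s, x ≤ y → g x ≤ g y)
    (ht : 1 ≤ t) : T s g ≤ s.card * Real.log t := by
  refine (T_le g s hg).trans ?_
  have hsum : ∑ i, cnt s g i = s.card := by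
    unfold cnt
    exact (card_eq_sum_card_fiberwise (fun _ _ => mem_coe.2 (mem_univ _))).symm
  rcases Nat.eq_zero_or_pos s.card with h0 | hpos
  · rw [h0]
    have : ∀ i, cnt s g i = 0 := by
      intro i
      have := single_le_sum (f := cnt s g) (fun _ _ => Nat.zero_le _) (mem_univ i)
      omega
    simp [this, A]
  have hS : (0 : ℝ) < s.card := by exact_mod_cast hpos
  have ht' : (0 : ℝ) < t := by exact_mod_cast ht
  have key : ∀ i, (cnt s g i : ℝ) * (H s.card - H (cnt s g i)) - cnt s g i * Real.log t ≤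
      s.card / t - cnt s g i := by
    intro i
    have hle : cnt s g i ≤ s.card := card_filter_le _ _
    rcases Nat.eq_zero_or_pos (cnt s g i) with h | h
    · rw [h]
      simp only [Nat.cast_zero, zero_mul, sub_zero]
      positivity
    · obtain ⟨d, hd⟩ := Nat.exists_eq_add_of_le hle
      have h1 := H_sub_le h d
      rw [← hd] at h1
      have h2 : ((cnt s g i : ℕ) : ℝ) + d = s.card := by rw [hd]; push_cast; ring
      rw [h2] at h1
      have hc : (0 : ℝ) < cnt s g i := by exact_mod_cast h
      have h3 := Real.log_le_sub_one_of_pos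
        (show (0 : ℝ) < (s.card : ℝ) / (t * cnt s g i) by positivity)
      rw [Real.log_div (by positivity) (by positivity), Real.log_mul (by positivity) (by positivity)]
        at h3
      have h4 : (cnt s g i : ℝ) * ((s.card : ℝ) / (t * cnt s g i) - 1) = s.card / t - cnt s g i := by
        field_simp
      rw [← h4, ← mul_sub]
      apply mul_le_mul_of_nonneg_left _ hc.le
      linarith
  have h1 := sum_le_sum (fun i (_ : i ∈ (univ : Finset (Fin t))) => key i)
  rw [sum_sub_distrib, sum_sub_distrib, ← sum_mul, ← Nat.cast_sum, hsum, sum_const, card_univ,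
    Fintype.card_fin, nsmul_eq_mul] at h1
  have h2 : (t : ℝ) * (s.card / t) = s.card := by field_simp
  rw [h2] at h1
  have h3 : A s.card - ∑ i, A (cnt s g i) = ∑ i, (cnt s g i : ℝ) * (H s.card - H (cnt s g i)) := by
    simp only [A_eq, mul_sub, sum_sub_distrib]
    rw [← sum_mul, ← Nat.cast_sum, hsum]
    ring
  rw [h3]
  linarith

/-! ### The averaging argument -/

theorem sum_inv (y : ℕ) : ∑ x ∈ range y, ((y : ℝ) - x)⁻¹ = H y := by
  unfold H
  rw [← sum_range_reflect]
  apply sum_congr rfl
  intro x hx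
  rw [mem_range] at hx
  rw [one_div]
  congr 1
  have : ((y - 1 - x : ℕ) : ℝ) = y - 1 - x := by
    rw [Nat.cast_sub (by omega), Nat.cast_sub (by omega)]
    simp
  rw [this]
  ring

theorem avg {ι : Type} (J : Finset ι) (W : ι → ℝ) (hW : ∀ i ∈ J, 0 ≤ W i) (N : ℕ) (hN : 1 ≤ N)
    (s : ι → Finset ℕ) (hs : ∀ i ∈ J, s i ⊆ range N) (g : ι → ℕ → Fin t) (ht : 1 ≤ t)
    (hg : ∀ i ∈ J, ∀ x ∈ s i, ∀ y ∈ s i, x ≤ y → g i x ≤ g i y) (Λ : ℝ)
    (hcover : ∀ y ∈ range N, ∀ x ∈ range y,
      1 ≤ ∑ i ∈ J, if x ∈ s i ∧ y ∈ s i ∧ g i x < g i y then W i else 0)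
    (hload : ∀ x ∈ range N, ∑ i ∈ J, (if x ∈ s i then W i else 0) ≤ Λ) :
    Real.log N - 1 ≤ Λ * Real.log t := by
  have hN' : (0 : ℝ) < N := by exact_mod_cast hN
  have hlog : 0 ≤ Real.log t := Real.log_nonneg (by exact_mod_cast ht)
  -- lower bound
  have h1 : (N : ℝ) * (Real.log N - 1) ≤ ∑ y ∈ range N, ∑ x ∈ range y, ((y : ℝ) - x)⁻¹ := by
    simp only [sum_inv]
    have h2 : ∑ y ∈ range N, H y = A N := rfl
    rw [h2, A_eq]
    have h3 := log_le_H N
    have h4 : Real.log N ≤ Real.log ((N : ℝ) + 1) := Real.log_le_log hN' (by linarith)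
    nlinarith
  -- insert the cover
  have h2 : ∑ y ∈ range N, ∑ x ∈ range y, ((y : ℝ) - x)⁻¹ ≤
      ∑ y ∈ range N, ∑ x ∈ range y, ∑ i ∈ J,
        if x ∈ s i ∧ y ∈ s i ∧ g i x < g i y then W i * ((y : ℝ) - x)⁻¹ else 0 := by
    apply sum_le_sum
    intro y hy
    apply sum_le_sum
    intro x hx
    have hxy : x < y := mem_range.1 hx
    have hpos : (0 : ℝ) ≤ ((y : ℝ) - x)⁻¹ := by
      apply inv_nonneg.2
      have : (x : ℝ) < y := by exact_mod_cast hxy
      linarith
    calc ((y : ℝ) - x)⁻¹ = 1 * ((y : ℝ) - x)⁻¹ := (one_mul _).symm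
      _ ≤ (∑ i ∈ J, if x ∈ s i ∧ y ∈ s i ∧ g i x < g i y then W i else 0) * ((y : ℝ) - x)⁻¹ :=
          mul_le_mul_of_nonneg_right (hcover y hy x hx) hpos
      _ = _ := by
          rw [sum_mul]
          apply sum_congr rfl
          intro i _
          split_ifs
          · rfl
          · rw [zero_mul]
  -- exchange
  have h3 : ∑ y ∈ range N, ∑ x ∈ range y, ∑ i ∈ J,
        (if x ∈ s i ∧ y ∈ s i ∧ g i x < g i y then W i * ((y : ℝ) - x)⁻¹ else 0) ≤
      ∑ i ∈ J, W i * T (s i) (g i) := by
    rw [sum_congr rfl (fun y _ => sum_comm), sum_comm]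
    apply sum_le_sum
    intro i hi
    have h4 : T (s i) (g i) = ∑ y ∈ range N, ∑ x ∈ range y,
        if x ∈ s i ∧ y ∈ s i ∧ g i x < g i y then ((y : ℝ) - x)⁻¹ else 0 := by
      unfold T
      rw [← sum_subset (hs i hi) (f := fun y => ∑ x ∈ range y,
        if x ∈ s i ∧ y ∈ s i ∧ g i x < g i y then ((y : ℝ) - x)⁻¹ else 0)]
      · apply sum_congr rfl
        intro y hy
        have hyN := mem_range.1 (hs i hi hy)
        -- both sums equal the sum over the common part
        rw [← sum_filter, ← sum_filter]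
        apply sum_congr _ (fun _ _ => rfl)
        ext x
        rw [mem_filter, mem_filter, mem_range]
        constructor
        · rintro ⟨hx, hlt⟩
          refine ⟨?_, hx, hy, hlt⟩
          by_contra hcon
          exact absurd hlt (not_lt.2 (hg i hi y hy x hx (not_lt.1 hcon)))
        · rintro ⟨_, hx, _, hlt⟩
          exact ⟨hx, hlt⟩
      · intro y _ hy
        apply sum_eq_zero
        intro x _
        rw [if_neg]
        rintro ⟨_, h, _⟩
        exact hy h
    rw [h4, mul_sum]
    apply le_of_eq
    apply sum_congr rfl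
    intro y _
    rw [mul_sum]
    apply sum_congr rfl
    intro x _
    split_ifs
    · rfl
    · rw [mul_zero]
  have h5 : ∑ i ∈ J, W i * T (s i) (g i) ≤ ∑ i ∈ J, W i * ((s i).card * Real.log t) := by
    apply sum_le_sum
    intro i hi
    exact mul_le_mul_of_nonneg_left (T_le_log (g i) (s i) (hg i hi) ht) (hW i hi)
  have h6 : ∑ i ∈ J, W i * ((s i).card * Real.log t) =
      (∑ x ∈ range N, ∑ i ∈ J, (if x ∈ s i then W i else 0)) * Real.log t := by
    rw [sum_comm, sum_mul]
    apply sum_congr rfl
    intro i hi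
    rw [← sum_filter, sum_const, nsmul_eq_mul]
    have : (range N).filter (fun x => x ∈ s i) = s i := by
      ext x
      rw [mem_filter]
      exact ⟨fun h => h.2, fun h => ⟨hs i hi h, h⟩⟩
    rw [this]
    ring
  have h7 : (∑ x ∈ range N, ∑ i ∈ J, (if x ∈ s i then W i else 0)) ≤ N * Λ := by
    calc _ ≤ ∑ x ∈ range N, Λ := sum_le_sum hload
      _ = N * Λ := by rw [sum_const, card_range, nsmul_eq_mul]
  have h8 : (N : ℝ) * (Real.log N - 1) ≤ N * (Λ * Real.log t) := by
    have h9 := mul_le_mul_of_nonneg_right h7 hlog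
    calc _ ≤ _ := h1
      _ ≤ _ := h2
      _ ≤ _ := h3
      _ ≤ _ := h5
      _ = _ := h6
      _ ≤ _ := h9
      _ = _ := by ring
  exact le_of_mul_le_mul_left h8 hN'

/-! ### Powers of a realiser -/

theorem level (m : ℕ) : ∀ k x y : ℕ, x < y → x / m ^ k = y / m ^ k →
    ∃ j < k, x / m ^ (j + 1) = y / m ^ (j + 1) ∧ (x / m ^ j) % m < (y / m ^ j) % m := by
  intro k
  induction k with
  | zero => intro x y h1 h2; simp at h2; omega
  | succ k ih =>
    intro x y h1 h2
    by_cases h : x / m ^ k = y / m ^ k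
    · obtain ⟨j, hj, h3⟩ := ih x y h1 h
      exact ⟨j, by omega, h3⟩
    · refine ⟨k, Nat.lt_succ_self k, h2, ?_⟩
      have h3 : x / m ^ k < y / m ^ k := lt_of_le_of_ne (Nat.div_le_div_right h1.le) h
      have h4 : x / m ^ k / m = y / m ^ k / m := by
        rw [Nat.div_div_eq_div_mul, Nat.div_div_eq_div_mul, ← pow_succ]
        exact h2
      have h5 := Nat.div_add_mod (x / m ^ k) m
      have h6 := Nat.div_add_mod (y / m ^ k) m
      rw [h4] at h5
      omega

section
variable {m : ℕ} [NeZero m]

def digit (m : ℕ) [NeZero m] (j x : ℕ) : Fin m :=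
  ⟨(x / m ^ j) % m, Nat.mod_lt _ (Nat.pos_of_ne_zero (NeZero.ne m))⟩

theorem digit_le {j x y : ℕ} (hxy : x ≤ y) (h : x / m ^ (j + 1) = y / m ^ (j + 1)) :
    digit m j x ≤ digit m j y := by
  rw [Fin.le_def]
  show (x / m ^ j) % m ≤ (y / m ^ j) % m
  have h3 : x / m ^ j ≤ y / m ^ j := Nat.div_le_div_right hxy
  have h4 : x / m ^ j / m = y / m ^ j / m := by
    rw [Nat.div_div_eq_div_mul, Nat.div_div_eq_div_mul, ← pow_succ]
    exact h
  have h5 := Nat.div_add_mod (x / m ^ j) m
  have h6 := Nat.div_add_mod (y / m ^ j) m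
  rw [h4] at h5
  omega

theorem power_bound (ht : 1 ≤ t) (w : MonoPartial t (Fin m) → ℝ) (hw : IsRealiser w) (l : ℝ)
    (hl : ∀ x, load w x ≤ l) (k : ℕ) :
    k * Real.log m - 1 ≤ k * l * Real.log t := by
  classical
  have hm : 0 < m := Nat.pos_of_ne_zero (NeZero.ne m)
  let N := m ^ k
  have hN : 1 ≤ N := Nat.one_le_pow _ _ hm
  let J : Finset (ℕ × ℕ × MonoPartial t (Fin m)) := range k ×ˢ range N ×ˢ univ
  let s : ℕ × ℕ × MonoPartial t (Fin m) → Finset ℕ := fun i =>
    (range N).filter fun x => x / m ^ (i.1 + 1) = i.2.1 ∧ (i.2.2.1 (digit m i.1 x)).isSome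
  let g : ℕ × ℕ × MonoPartial t (Fin m) → ℕ → Fin t := fun i x =>
    (i.2.2.1 (digit m i.1 x)).getD ⟨0, ht⟩
  have hval : ∀ i x, x ∈ s i → i.2.2.1 (digit m i.1 x) = some (g i x) := by
    intro i x hx
    obtain ⟨a, ha⟩ := Option.isSome_iff_exists.1 (mem_filter.1 hx).2.2
    simp only [g, ha, Option.getD_some]
  have h := avg J (fun i => w i.2.2) (fun i _ => hw.1 _) N hN s (fun i _ => filter_subset _ _) g ht
    (by
      intro i _ x hx y hy hxy
      have h1 := (mem_filter.1 hx).2.1
      have h2 := (mem_filter.1 hy).2.1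
      exact i.2.2.2 _ _ _ _ (digit_le hxy (h1.trans h2.symm)) (hval i x hx) (hval i y hy))
    (k * l) ?_ ?_
  · have h1 : Real.log (N : ℕ) = k * Real.log m := by
      rw [show ((N : ℕ) : ℝ) = (m : ℝ) ^ k by simp [N], Real.log_pow]
    rw [h1] at h
    exact h
  · intro y hy x hx
    have hyN := mem_range.1 hy
    have hxy := mem_range.1 hx
    obtain ⟨j, hj, h1, h2⟩ := level m k x y hxy (by
      rw [Nat.div_eq_of_lt hyN, Nat.div_eq_of_lt (hxy.trans hyN)])
    have hreal := hw.2 (digit m j x) (digit m j y) (not_le.2 h2)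
    have hc : x / m ^ (j + 1) ∈ range N :=
      mem_range.2 ((Nat.div_le_self _ _).trans_lt (hxy.trans hyN))
    have hnn : ∀ i : ℕ × ℕ × MonoPartial t (Fin m), (0 : ℝ) ≤
        if x ∈ s i ∧ y ∈ s i ∧ g i x < g i y then w i.2.2 else 0 := by
      intro i
      split_ifs
      · exact hw.1 _
      · exact le_rfl
    calc (1 : ℝ) ≤ ∑ f, if Sep f (digit m j x) (digit m j y) then w f else 0 := hreal
      _ ≤ ∑ f, (if x ∈ s (j, x / m ^ (j + 1), f) ∧ y ∈ s (j, x / m ^ (j + 1), f) ∧
            g (j, x / m ^ (j + 1), f) x < g (j, x / m ^ (j + 1), f) y then w f else 0) := by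
          apply sum_le_sum
          intro f _
          by_cases hs : Sep f (digit m j x) (digit m j y)
          · rw [if_pos hs]
            obtain ⟨a, b, ha, hb, hab⟩ := hs
            rw [if_pos]
            refine ⟨?_, ?_, ?_⟩
            · rw [mem_filter]
              exact ⟨mem_range.2 (hxy.trans hyN), rfl, by simp [ha]⟩
            · rw [mem_filter]
              exact ⟨hy, h1.symm, by simp [hb]⟩
            · simp only [g, ha, hb, Option.getD_some]
              exact hab
          · rw [if_neg hs]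
            exact hnn (j, x / m ^ (j + 1), f)
      _ ≤ ∑ i ∈ J, if x ∈ s i ∧ y ∈ s i ∧ g i x < g i y then w i.2.2 else 0 := by
          rw [sum_product]
          have e1 := single_le_sum (f := fun j' => ∑ i ∈ range N ×ˢ (univ : Finset (MonoPartial t (Fin m))),
            if x ∈ s (j', i) ∧ y ∈ s (j', i) ∧ g (j', i) x < g (j', i) y then w i.2 else 0)
            (fun j' _ => sum_nonneg fun i _ => hnn (j', i)) (mem_range.2 hj)
          refine le_trans ?_ e1
          rw [sum_product]
          exact single_le_sum (f := fun c => ∑ f : MonoPartial t (Fin m),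
            if x ∈ s (j, c, f) ∧ y ∈ s (j, c, f) ∧ g (j, c, f) x < g (j, c, f) y then w f else 0)
            (fun c _ => sum_nonneg fun f _ => hnn (j, c, f)) hc
  · intro x hx
    have hxN := mem_range.1 hx
    rw [sum_product]
    calc _ = ∑ j ∈ range k, load w (digit m j x) := by
          apply sum_congr rfl
          intro j _
          rw [sum_product, sum_comm]
          unfold load
          apply sum_congr rfl
          intro f _
          have hc : x / m ^ (j + 1) ∈ range N :=
            mem_range.2 ((Nat.div_le_self _ _).trans_lt hxN)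
          rw [sum_eq_single_of_mem _ hc]
          · by_cases hf : (f.1 (digit m j x)).isSome = true
            · rw [if_pos hf, if_pos]
              rw [mem_filter]
              exact ⟨hx, rfl, hf⟩
            · rw [if_neg hf, if_neg]
              intro h
              exact hf (mem_filter.1 h).2.2
          · intro c _ hne
            rw [if_neg]
            intro h
            exact hne (mem_filter.1 h).2.1.symm
      _ ≤ ∑ j ∈ range k, l := sum_le_sum fun j _ => hl _
      _ = k * l := by rw [sum_const, card_range, nsmul_eq_mul]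

theorem log_le (ht : 1 ≤ t) (w : MonoPartial t (Fin m) → ℝ) (hw : IsRealiser w) (l : ℝ)
    (hl : ∀ x, load w x ≤ l) : Real.log m ≤ l * Real.log t := by
  by_contra hcon
  push Not at hcon
  obtain ⟨k, hk⟩ := exists_nat_gt (1 / (Real.log m - l * Real.log t))
  have hpos : 0 < Real.log m - l * Real.log t := by linarith
  rw [div_lt_iff₀ hpos] at hk
  have := power_bound ht w hw l hl k
  nlinarith

end

theorem exists_realiser {t : ℕ} (ht : 2 ≤ t) (m : ℕ) :
    ∃ c : ℝ, ∃ w : MonoPartial t (Fin m) → ℝ, IsRealiser w ∧ ∀ x, load w x ≤ c := by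
  classical
  refine ⟨∑ f : MonoPartial t (Fin m), 1, fun _ => 1, ⟨fun _ => zero_le_one, ?_⟩, ?_⟩
  · intro x y hxy
    have hlt : x < y := not_le.1 hxy
    let f0 : Fin m → Option (Fin t) := fun z =>
      if z = x then some ⟨0, by omega⟩ else if z = y then some ⟨1, by omega⟩ else none
    have hf0 : ∀ z z' : Fin m, ∀ a b : Fin t, z ≤ z' → f0 z = some a → f0 z' = some b → a ≤ b := by
      intro z z' a b hz ha hb
      simp only [f0] at ha hb
      by_cases h1 : z = x
      · rw [if_pos h1, Option.some.injEq] at ha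
        rw [← ha]
        exact Fin.mk_le_of_le_val (Nat.zero_le _)
      · rw [if_neg h1] at ha
        by_cases h2 : z = y
        · rw [if_pos h2, Option.some.injEq] at ha
          by_cases h3 : z' = x
          · subst h2 h3
            exact absurd hz (not_le.2 hlt)
          · rw [if_neg h3] at hb
            by_cases h4 : z' = y
            · rw [if_pos h4, Option.some.injEq] at hb
              rw [← ha, ← hb]
            · rw [if_neg h4] at hb
              exact absurd hb (by simp)
        · rw [if_neg h2] at ha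
          exact absurd ha (by simp)
    have hsep : Sep (⟨f0, hf0⟩ : MonoPartial t (Fin m)) x y := by
      refine ⟨⟨0, by omega⟩, ⟨1, by omega⟩, ?_, ?_, ?_⟩
      · simp [f0]
      · simp [f0, hlt.ne']
      · rw [Fin.lt_def]
        exact Nat.zero_lt_one
    have := single_le_sum (f := fun f : MonoPartial t (Fin m) => if Sep f x y then (1 : ℝ) else 0)
      (fun f _ => by split_ifs <;> norm_num) (mem_univ ⟨f0, hf0⟩)
    simp only [if_pos hsep] at this
    exact this
  · intro x
    unfold load
    apply sum_le_sum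
    intro f _
    split_ifs <;> norm_num

/-- For all `t ≥ 2` and `m ≥ 1` the fractional local `t`-dimension of the `m`-element chain is at
least `log_t m`; in fact every fractional local `t`-realiser of it has load at least `log_t m` at
some point. -/
theorem result : ∀ t m : ℕ, 2 ≤ t → 1 ≤ m →
    (∀ w : MonoPartial t (Fin m) → ℝ, IsRealiser w → ∃ x, Real.logb t m ≤ load w x) ∧
    Real.logb t m ≤ fldim t (Fin m) := by
  intro t m ht hm
  have : NeZero m := ⟨by omega⟩
  have hlog : 0 < Real.log t := Real.log_pos (by exact_mod_cast (by omega : 1 < t))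
  constructor
  · intro w hw
    obtain ⟨x, -, hx⟩ := exists_max_image (univ : Finset (Fin m)) (load w) ⟨0, mem_univ _⟩
    refine ⟨x, ?_⟩
    have := log_le (by omega) w hw (load w x) (fun y => hx y (mem_univ y))
    rw [Real.logb, div_le_iff₀ hlog]
    exact this
  · apply le_csInf
    · obtain ⟨c, w, hw, hc⟩ := exists_realiser ht m
      exact ⟨c, w, hw, hc⟩
    · rintro c ⟨w, hw, hc⟩
      have := log_le (by omega) w hw c hc
      rw [Real.logb, div_le_iff₀ hlog]
      exact this

end Pool.Agent.Results.MP_c6110c_co.LowerBound
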